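import Pool.Agent.R909.DsqE

/-!
# MP_0c8446_ag: numerically trivial cycles on the square and the Hilbert square

Let `X` be a smooth projective variety of dimension `n ≥ 2` with a divisor `D` which satisfies the
hard Lefschetz theorem, and let `Y = X^[2]` be the Hilbert scheme of two points of `X`: its cohomology
is the part of `H(X × X)` invariant under the exchange of the factors, plus the sum of the twists of
`H(X)` by `1, …, n - 1`, by algebraic correspondences.

* The following are equivalent: homological and numerical equivalence coincide for the cycles on `Y`;
  they coincide for the cycles of codimension `n` and `n + 1` on `Y`; they coincide for the cycles on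
  `X × X` which are invariant under the exchange of the factors (in all codimensions, or in the
  codimensions `n` and `n + 1`, or in codimension `n` if the Lefschetz standard conjecture holds for
  `X`). The single codimension `n + 1` on `Y` suffices for the Lefschetz standard conjecture for `X`.
* If they coincide on `Y` then every numerically trivial cycle `u` on `X × X` is of codimension `n` (or
  homologically trivial), is changed to `-u` by the exchange of the factors, acts only on the
  primitive part of `H^n(X)`, satisfies `z ∘ u = u ∘ ᵗz` for all algebraic correspondences `z` of any
  degree, and is killed by all commutators of correspondences; any three such cycles have product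
  zero. So homological and numerical equivalence coincide on `X × X` if no nonzero primitive class of
  degree `n` on `X` is killed by all commutators of correspondences.
-/

open CategoryTheory AlgebraicGeometry

universe u v

namespace Pool.Agent.R909.Out.NumericallyTrivialOnSquares

open Pool.Agent.H914 Pool.Agent.H447 Pool.Agent.R909 VarClass Obj WeilCohomology

variable {k : Type u} [Field k] {𝒱 : VarClass k} {ops : CycleOps 𝒱}

/-- **Numerically trivial cycles on the square and the Hilbert square.** -/
theorem result (W : WeilCohomology.{u, v} ops) (X Y : 𝒱.Obj) (D : X.Cycles)
    (hD : IsPolarization W X D) (hY : IsHilb W Y X) :
    HilbertSquareD W Y X D ∧ (HomEqNumIn W Y (X.dim + 1) → LefschetzB W X D) ∧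
      NumTrivialOnSquare W Y X D :=
  ⟨hilbertD_tfae hY hD, lefschetzB_of_hilbertIn hY hD, numTrivial_square hY hD⟩

end Pool.Agent.R909.Out.NumericallyTrivialOnSquares
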