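import Pool.Agent.R909.RandCong
import Pool.Agent.R479.DA.Lim
import Pool.Agent.Results.MP_44a246_nt.ManyTermAbc

/-!
# The `n`-term abc inequality over a number field and random residues

Let `K` be a number field of degree `d`, `n ≥ 3`, `𝓗 : Z_1 + ⋯ + Z_n = 0`, and let `𝓩` be the closed
subset of `𝓗` where a proper sub-sum of the coordinates vanishes. Let `N j` be the norms of moduli
with a convergent sum of the `N j ^ (-s)`, `X j` random residues, each value of which has probability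
at most `C * N j ^ (-δ)`, `s < δ`, and `φ j` any maps from the `K`-points to the residues. If
`d (1 - 1 / binom(n, ⌊n/2⌋)) < (δ - s) τ`, then almost surely all points `P` of `𝓗(K)` outside `𝓩`
with `φ j P = X j` for some `j` with `exp (τ h (P)) ≤ N j` satisfy `h (P) < rad (P) + C`.
-/

set_option autoImplicit false

namespace Pool.Agent.R909.Out.RandomResiduesNF

open Filter Topology MeasureTheory NumberField IsDedekindDomain Module

section defs

variable {K : Type} [Field K] [NumberField K] {n : ℕ}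

/-- the absolute logarithmic height `h (P)` of a point of projective space over `K` -/
noncomputable def h (P : Projectivization K (Fin n → K)) : ℝ :=
  P.logHeight / finrank ℚ K

/-- `rad (P)`: the sum of the `log N(v) / [K : ℚ]` over the primes `v` at which the coordinates of
`P` do not all have the same absolute value -/
noncomputable def rad (P : Projectivization K (Fin n → K)) : ℝ :=
  (∑ᶠ v ∈ {v : HeightOneSpectrum (𝓞 K) |
      ∃ i j, FinitePlace.mk v (P.rep i) ≠ FinitePlace.mk v (P.rep j)},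
    Real.log (Ideal.absNorm v.asIdeal : ℝ)) / finrank ℚ K

/-- the points of `𝓗 : Z_1 + ⋯ + Z_n = 0` outside the closed subset `𝓩` where a proper sub-sum of
the coordinates vanishes -/
def OffZ (P : Projectivization K (Fin n → K)) : Prop :=
  ∑ i, P.rep i = 0 ∧ ∀ I : Finset (Fin n), I.Nonempty → I ≠ Finset.univ → ∑ i ∈ I, P.rep i ≠ 0

end defs

/-- `1 - 1 / binom(n, ⌊n/2⌋)` -/
noncomputable def κ (n : ℕ) : ℝ := 1 - 1 / (n.choose (n / 2) : ℝ)

lemma κ_nonneg (n : ℕ) : 0 ≤ κ n := by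
  unfold κ
  have h1 : 1 ≤ n.choose (n / 2) := Nat.choose_pos (Nat.div_le_self n 2)
  have h2 : (1 : ℝ) ≤ (n.choose (n / 2) : ℝ) := by exact_mod_cast h1
  rw [sub_nonneg, div_le_one (by linarith)]
  exact h2

section basic

variable {K : Type} [Field K] [NumberField K] {n : ℕ} {P : Projectivization K (Fin n → K)}

lemma OffZ.ne_zero (hn : 3 ≤ n) (hP : OffZ P) (i : Fin n) : P.rep i ≠ 0 := by
  have h := hP.2 {i} (Finset.singleton_nonempty i) ?_
  · simpa using h
  · intro h
    have h1 := congrArg Finset.card h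
    rw [Finset.card_singleton, Finset.card_univ, Fintype.card_fin] at h1
    omega

lemma finrank_pos' : (0 : ℝ) < finrank ℚ K := by exact_mod_cast finrank_pos

lemma rad_nonneg (P : Projectivization K (Fin n → K)) : 0 ≤ rad P := by
  unfold rad
  refine div_nonneg (finsum_nonneg fun v => finsum_nonneg fun _ => ?_) (Nat.cast_nonneg _)
  exact Real.log_natCast_nonneg _

lemma h_nonneg (P : Projectivization K (Fin n → K)) : 0 ≤ h P :=
  div_nonneg P.logHeight_nonneg (Nat.cast_nonneg _)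

/-- the truncated counting function of the starting library is `[K : ℚ] rad` -/
lemma truncated_eq (hn : 3 ≤ n) (hP : OffZ P) :
    Pool.Agent.Results.MP_44a246_nt.ManyTermAbc.truncated ∅ P.rep = finrank ℚ K * rad P := by
  unfold rad Pool.Agent.Results.MP_44a246_nt.ManyTermAbc.truncated
  rw [mul_div_cancel₀ _ (finrank_pos' (K := K)).ne']
  have hset : {v : HeightOneSpectrum (𝓞 K) | v ∉ (∅ : Set (HeightOneSpectrum (𝓞 K))) ∧
      0 < Pool.Agent.Results.MP_44a246_nt.ManyTermAbc.localHeight v P.rep} =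
      {v : HeightOneSpectrum (𝓞 K) |
        ∃ i j, FinitePlace.mk v (P.rep i) ≠ FinitePlace.mk v (P.rep j)} := by
    ext v
    simp only [Set.mem_empty_iff_false, not_false_eq_true, true_and, Set.mem_ofPred_eq]
    set x : Fin n → ℝ := fun i => FinitePlace.mk v (P.rep i) with hx
    have hpos : ∀ i, 0 < x i := fun i => by
      have h1 : FinitePlace.mk v (P.rep i) ≠ 0 := by
        rw [map_ne_zero]
        exact hP.ne_zero hn i
      exact lt_of_le_of_ne (apply_nonneg _ _) (Ne.symm h1)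
    have hle : ∀ i, x i ≤ ⨆ j, x j := fun i => le_ciSup (Set.finite_range _).bddAbove i
    have hterm : ∀ i, 0 ≤ Real.log ((⨆ j, x j) / x i) := fun i =>
      Real.log_nonneg ((one_le_div (hpos i)).2 (hle i))
    have hlh : Pool.Agent.Results.MP_44a246_nt.ManyTermAbc.localHeight v P.rep =
        ∑ i, Real.log ((⨆ j, x j) / x i) := rfl
    rw [hlh]
    constructor
    · intro hlt
      by_contra hcon
      push Not at hcon
      have h0 : ∀ i, Real.log ((⨆ j, x j) / x i) = 0 := by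
        intro i
        haveI : Nonempty (Fin n) := ⟨i⟩
        have h1 : (⨆ j, x j) = x i := by
          have h2 : ∀ j, x j = x i := fun j => hcon j i
          simp only [h2]
          exact ciSup_const
        rw [h1, div_self (hpos i).ne', Real.log_one]
      rw [Finset.sum_eq_zero fun i _ => h0 i] at hlt
      exact lt_irrefl _ hlt
    · rintro ⟨i, j, hij⟩
      have hij' : x i ≠ x j := hij
      have key : ∀ i j, x i < x j → 0 < ∑ i, Real.log ((⨆ j, x j) / x i) := by
        intro i j hlt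
        refine Finset.sum_pos' (fun i _ => hterm i) ⟨i, Finset.mem_univ i, ?_⟩
        apply Real.log_pos
        rw [one_lt_div (hpos i)]
        exact lt_of_lt_of_le hlt (hle j)
      rcases lt_or_gt_of_ne hij' with h1 | h1
      · exact key i j h1
      · exact key j i h1
  rw [hset]

lemma exp_h (P : Projectivization K (Fin n → K)) (τ : ℝ) :
    Real.exp (-τ * h P) = P.mulHeight ^ (-(τ / finrank ℚ K)) := by
  unfold h
  rw [Projectivization.logHeight_eq_log_mulHeight, Real.rpow_def_of_pos P.mulHeight_pos]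
  congr 1
  ring

end basic

section count

variable (K : Type) [Field K] [NumberField K] {n : ℕ}

/-- counting a set of points through the subtype -/
lemma count_subtype {T : Type} {H : T → ℝ} {Q : T → Prop} {B C : ℝ}
    (hfin : {x | Q x ∧ H x ≤ B}.Finite)
    (hK : (({x | Q x ∧ H x ≤ B}.ncard : ℕ) : ℝ) ≤ C) :
    {i : {x // Q x} | H i.1 ≤ B}.Finite ∧
      (({i : {x // Q x} | H i.1 ≤ B}.ncard : ℕ) : ℝ) ≤ C := by
  have himg : Subtype.val '' {i : {x // Q x} | H i.1 ≤ B} = {x | Q x ∧ H x ≤ B} := by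
    ext x
    simp only [Set.mem_image, Set.mem_ofPred_eq, Subtype.exists, exists_and_left, exists_prop,
      exists_eq_right_right]
    tauto
  have hinj : Set.InjOn Subtype.val {i : {x // Q x} | H i.1 ≤ B} :=
    Subtype.val_injective.injOn
  constructor
  · refine Set.Finite.of_finite_image ?_ hinj
    rw [himg]
    exact hfin
  · rw [← hinj.ncard_image, himg]
    exact hK

lemma countable_of_finite {ι : Type} (H : ι → ℝ) (hH : ∀ B : ℝ, 1 ≤ B → {i | H i ≤ B}.Finite) :
    Countable ι := by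
  rw [← Set.countable_univ_iff]
  have h1 : (Set.univ : Set ι) ⊆ ⋃ k : ℕ, {i | H i ≤ (k : ℝ) + 1} := by
    intro i _
    obtain ⟨k, hk⟩ := exists_nat_ge (H i)
    exact Set.mem_iUnion.2 ⟨k, by
      simp only [Set.mem_ofPred_eq]
      linarith⟩
  refine Set.Countable.mono h1 (Set.countable_iUnion fun k => (hH _ ?_).countable)
  have : (0 : ℝ) ≤ k := Nat.cast_nonneg k
  linarith

/-- the bad points -/
def Bad (n : ℕ) (M c : ℝ) (P : Projectivization K (Fin n → K)) : Prop :=
  OffZ P ∧ ¬ h P < M * rad P + c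

lemma hcount (hn : 3 ≤ n) {M : ℝ} (hM : 0 < M) (c : ℝ) :
    ∀ ε : ℝ, 0 < ε → ∃ C : ℝ, ∀ B : ℝ, 1 ≤ B →
      {i : {P // Bad K n M c P} | i.1.mulHeight ≤ B}.Finite ∧
      (({i : {P // Bad K n M c P} | i.1.mulHeight ≤ B}.ncard : ℕ) : ℝ) ≤
        C * B ^ (κ n / M + ε) := by
  intro ε hε
  obtain ⟨C, hC⟩ := Pool.Agent.Results.MP_44a246_nt.ManyTermAbc.result K ∅ Set.finite_empty n hn (1 / M)
    (-(c * finrank ℚ K / M)) ε (by positivity) hε
  refine ⟨C, fun B hB => ?_⟩
  obtain ⟨h1, h2⟩ := hC B hB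
  have hsub : {P | Bad K n M c P ∧ P.mulHeight ≤ B} ⊆
      {P : Projectivization K (Fin n → K) | ∑ i, P.rep i = 0 ∧
        (∀ I : Finset (Fin n), I.Nonempty → I ≠ Finset.univ → ∑ i ∈ I, P.rep i ≠ 0) ∧
        P.mulHeight ≤ B ∧ Pool.Agent.Results.MP_44a246_nt.ManyTermAbc.truncated ∅ P.rep ≤
          1 / M * P.logHeight + -(c * finrank ℚ K / M)} := by
    rintro P ⟨⟨h3, h4⟩, h5⟩
    refine ⟨h3.1, h3.2, h5, ?_⟩
    rw [truncated_eq hn h3]
    rw [not_lt] at h4
    have hd : (0 : ℝ) < finrank ℚ K := finrank_pos'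
    have h6 : h P * finrank ℚ K = P.logHeight := by
      unfold h
      rw [div_mul_cancel₀ _ hd.ne']
    rw [← h6]
    have h7 : 1 / M * (h P * finrank ℚ K) + -(c * finrank ℚ K / M) =
        finrank ℚ K * (h P - c) / M := by
      field_simp
      ring
    rw [h7, le_div_iff₀ hM]
    nlinarith
  refine count_subtype (H := fun P : Projectivization K (Fin n → K) => P.mulHeight)
    (h1.subset hsub) ?_
  have h8 : ((({P | Bad K n M c P ∧ P.mulHeight ≤ B}.ncard : ℕ) : ℝ)) ≤
      ((({P : Projectivization K (Fin n → K) | ∑ i, P.rep i = 0 ∧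
        (∀ I : Finset (Fin n), I.Nonempty → I ≠ Finset.univ → ∑ i ∈ I, P.rep i ≠ 0) ∧
        P.mulHeight ≤ B ∧ Pool.Agent.Results.MP_44a246_nt.ManyTermAbc.truncated ∅ P.rep ≤
          1 / M * P.logHeight + -(c * finrank ℚ K / M)}.ncard : ℕ) : ℝ)) := by
    exact_mod_cast Set.ncard_le_ncard hsub h1
  refine h8.trans (h2.trans (le_of_eq ?_))
  unfold κ
  rw [one_div_mul_eq_div]

end count

section main

variable {K : Type} [Field K] [NumberField K] {n : ℕ} {J Ω : Type} [MeasurableSpace Ω]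
  {μ : Measure Ω} {Rs : J → Type} {N : J → ℝ} {X : ∀ j : J, Ω → Rs j}
  {φ : ∀ j : J, Projectivization K (Fin n → K) → Rs j}

lemma summable_bad (hn : 3 ≤ n) {M p : ℝ} (hM : 0 < M) (c : ℝ)
    (hp : finrank ℚ K * κ n / M < p) :
    Summable fun P : {P // Bad K n M c P} => Real.exp (h P.1) ^ (-p) := by
  have hd : (0 : ℝ) < finrank ℚ K := finrank_pos'
  have hp' : κ n / M < p / finrank ℚ K := by
    rw [lt_div_iff₀ hd]
    calc κ n / M * finrank ℚ K = finrank ℚ K * κ n / M := by ring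
      _ < p := hp
  have h0 : 0 ≤ κ n / M := div_nonneg (κ_nonneg n) hM.le
  obtain ⟨C, hC⟩ := hcount K hn hM c ((p / finrank ℚ K - κ n / M) / 2) (by linarith)
  have h1 := Pool.Agent.R479.DA.summable_heights
    (fun P : {P // Bad K n M c P} => P.1.mulHeight)
    (fun P => P.1.one_le_mulHeight)
    (s := κ n / M + (p / finrank ℚ K - κ n / M) / 2) (p := p / finrank ℚ K) (C := C)
    (by linarith) (by linarith) hC
  refine h1.congr fun P => ?_
  rw [← exp_h, ← Real.exp_mul]
  congr 1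
  ring

lemma one_le_exp_h (P : Projectivization K (Fin n → K)) : 1 ≤ Real.exp (h P) :=
  Real.one_le_exp (h_nonneg P)

theorem part_three (hn : 3 ≤ n) (h0 : ∀ j, 1 ≤ N j) {s δ C : ℝ} (hs : s ≤ δ)
    (hN : Summable fun j => N j ^ (-s))
    (hX : ∀ j, ∀ r : Rs j, μ {ω | X j ω = r} ≤ ENNReal.ofReal (C * N j ^ (-δ)))
    {M τ η : ℝ} (hM : 0 < M) (hη : 0 ≤ η) (hlt : finrank ℚ K * κ n / M + η < (δ - s) * τ)
    (c : ℝ) :
    (∀ᵐ ω ∂μ, {i : J × Projectivization K (Fin n → K) | Bad K n M c i.2 ∧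
      Real.exp (h i.2) ^ τ ≤ N i.1 ∧ φ i.1 i.2 = X i.1 ω}.Finite) ∧
    ∃ B : ℝ, ∀ y : ℝ, 1 ≤ y →
      μ {ω | ∃ i : J × Projectivization K (Fin n → K), Bad K n M c i.2 ∧
        y ≤ Real.exp (h i.2) ∧ Real.exp (h i.2) ^ τ ≤ N i.1 ∧ φ i.1 i.2 = X i.1 ω} ≤
        ENNReal.ofReal (B * y ^ (-η)) :=
  Pool.Agent.R909.RC.main_subtype (T := Projectivization K (Fin n → K))
    (H := fun P => Real.exp (h P)) (Q := fun P => Bad K n M c P)
    (fun P _ => one_le_exp_h P) h0 hs hX hN (p := (δ - s) * τ - η) hη (by linarith)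
    (summable_bad hn hM c (by linarith))

/-- finitely many exceptions are absorbed by the constant -/
lemma absorb {T : Type} {f g : T → ℝ} {Q : T → Prop} (hfin : {P | Q P ∧ ¬ f P < g P}.Finite) :
    ∃ C : ℝ, ∀ P, Q P → f P < g P + C := by
  obtain ⟨B, hB⟩ := (hfin.image fun P => f P - g P).bddAbove
  refine ⟨max B 0 + 1, fun P hP => ?_⟩
  by_cases hg : f P < g P
  · have := le_max_right B 0
    linarith
  · have h1 : f P - g P ≤ B := hB ⟨P, ⟨hP, hg⟩, rfl⟩
    have := le_max_left B 0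
    linarith

/-- for a given `M` the inequality holds with a suitable constant -/
theorem with_constant (hn : 3 ≤ n) (h0 : ∀ j, 1 ≤ N j) {s δ C : ℝ} (hs : s ≤ δ)
    (hN : Summable fun j => N j ^ (-s))
    (hX : ∀ j, ∀ r : Rs j, μ {ω | X j ω = r} ≤ ENNReal.ofReal (C * N j ^ (-δ)))
    {M τ : ℝ} (hM : 0 < M) (hlt : finrank ℚ K * κ n / M < (δ - s) * τ) :
    ∀ᵐ ω ∂μ, ∃ C' : ℝ, ∀ (j : J) (P : Projectivization K (Fin n → K)), OffZ P →
      Real.exp (h P) ^ τ ≤ N j → φ j P = X j ω → h P < M * rad P + C' := by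
  have h1 := (part_three (φ := φ) (K := K) hn h0 hs hN hX hM le_rfl
    (by rw [add_zero]; exact hlt) 0).1
  filter_upwards [h1] with ω hω
  obtain ⟨C', hC'⟩ := absorb (T := J × Projectivization K (Fin n → K))
    (f := fun i => h i.2) (g := fun i => M * rad i.2)
    (Q := fun i => OffZ i.2 ∧ Real.exp (h i.2) ^ τ ≤ N i.1 ∧ φ i.1 i.2 = X i.1 ω)
    (hω.subset fun i hi => ⟨⟨hi.1.1, by rw [add_zero]; exact hi.2⟩, hi.1.2⟩)
  exact ⟨C', fun j P hP h2 h3 => hC' (j, P) ⟨hP, h2, h3⟩⟩

end main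

/-- **Theorem.** Let `K` be a number field of degree `d`, `n ≥ 3`, `𝓗 : Z_1 + ⋯ + Z_n = 0`, and let
`𝓩` be the closed subset of `𝓗` where a proper sub-sum of the coordinates vanishes. Let `N j ≥ 1` have
a convergent sum of the `N j ^ (-s)`, let `X j` be random elements of the sets `Rs j`, each value of
which has probability at most `C * N j ^ (-δ)`, `s < δ` (no independence is assumed), and let `φ j`
be any maps from the `K`-points of projective space to `Rs j`. We consider the points `P` of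
`𝓗 (K) ∖ 𝓩` with `exp (τ h (P)) ≤ N j` and `φ j P = X j` for some `j`.
(1) Almost surely, for every `τ > 0` there are `M` and `C'` such that all these `P` satisfy
`h (P) < M rad (P) + C'`.
(2) If `d (1 - 1 / binom(n, ⌊n/2⌋)) < (δ - s) τ`, then almost surely for every `ε ≥ 0` there is `C'`
such that all these `P` satisfy `h (P) < (1 + ε) rad (P) + C'`.
(3) If `M > 0`, `η ≥ 0` and `d (1 - 1 / binom(n, ⌊n/2⌋)) / M + η < (δ - s) τ`, then for every `c` there
are almost surely only finitely many pairs `(j, P)` with `h (P) ≥ M rad (P) + c`, and the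
probability that there is one with `exp (h (P)) ≥ y` is at most `B y ^ (-η)`. -/
theorem result (K : Type) [Field K] [NumberField K] (n : ℕ) (hn : 3 ≤ n) (J Ω : Type)
    [MeasurableSpace Ω] (μ : Measure Ω) (Rs : J → Type) (N : J → ℝ) (X : ∀ j : J, Ω → Rs j)
    (φ : ∀ j : J, Projectivization K (Fin n → K) → Rs j) (s δ C : ℝ) (hN : ∀ j, 1 ≤ N j)
    (hs : s < δ) (hsum : Summable fun j => N j ^ (-s))
    (hX : ∀ j, ∀ r : Rs j, μ {ω | X j ω = r} ≤ ENNReal.ofReal (C * N j ^ (-δ))) :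
    (∀ᵐ ω ∂μ, ∀ τ : ℝ, 0 < τ → ∃ M C' : ℝ, ∀ (j : J) (P : Projectivization K (Fin n → K)),
      OffZ P → Real.exp (h P) ^ τ ≤ N j → φ j P = X j ω → h P < M * rad P + C') ∧
    (∀ τ : ℝ, finrank ℚ K * κ n < (δ - s) * τ → ∀ᵐ ω ∂μ, ∀ ε : ℝ, 0 ≤ ε → ∃ C' : ℝ,
      ∀ (j : J) (P : Projectivization K (Fin n → K)), OffZ P → Real.exp (h P) ^ τ ≤ N j →
        φ j P = X j ω → h P < (1 + ε) * rad P + C') ∧
    (∀ M τ η c : ℝ, 0 < M → 0 ≤ η → finrank ℚ K * κ n / M + η < (δ - s) * τ →
      (∀ᵐ ω ∂μ, {i : J × Projectivization K (Fin n → K) | (OffZ i.2 ∧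
        ¬ h i.2 < M * rad i.2 + c) ∧ Real.exp (h i.2) ^ τ ≤ N i.1 ∧
        φ i.1 i.2 = X i.1 ω}.Finite) ∧
      ∃ B : ℝ, ∀ y : ℝ, 1 ≤ y →
        μ {ω | ∃ i : J × Projectivization K (Fin n → K), (OffZ i.2 ∧
          ¬ h i.2 < M * rad i.2 + c) ∧ y ≤ Real.exp (h i.2) ∧
          Real.exp (h i.2) ^ τ ≤ N i.1 ∧ φ i.1 i.2 = X i.1 ω} ≤
          ENNReal.ofReal (B * y ^ (-η))) := by
  have hd : (0 : ℝ) < finrank ℚ K := finrank_pos'
  refine ⟨?_, fun τ hτ => ?_, fun M τ η c hM hη hlt => part_three hn hN hs.le hsum hX hM hη hlt c⟩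
  · have hk : ∀ k : ℕ, ∃ M : ℝ, ∀ᵐ ω ∂μ, ∃ C' : ℝ, ∀ (j : J)
        (P : Projectivization K (Fin n → K)), OffZ P →
        Real.exp (h P) ^ (1 / ((k : ℝ) + 1)) ≤ N j → φ j P = X j ω → h P < M * rad P + C' := by
      intro k
      have hpos : 0 < (δ - s) * (1 / ((k : ℝ) + 1)) := mul_pos (by linarith) (by positivity)
      obtain ⟨M, hM⟩ := exists_gt (max 1 (finrank ℚ K * κ n /
        ((δ - s) * (1 / ((k : ℝ) + 1)))))
      have h1 : 1 < M := lt_of_le_of_lt (le_max_left _ _) hM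
      have h2 := lt_of_le_of_lt (le_max_right _ _) hM
      refine ⟨M, with_constant hn hN hs.le hsum hX (by linarith) ?_⟩
      rw [div_lt_iff₀ (by linarith)]
      rw [div_lt_iff₀ hpos] at h2
      linarith
    choose Mk hMk using hk
    filter_upwards [ae_all_iff.2 hMk] with ω hω τ hτ
    obtain ⟨k, hk⟩ := exists_nat_ge (1 / τ)
    have hk' : 1 / ((k : ℝ) + 1) ≤ τ := by
      rw [div_le_iff₀ (by positivity)]
      rw [div_le_iff₀ hτ] at hk
      nlinarith
    obtain ⟨C', hC'⟩ := hω k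
    exact ⟨Mk k, C', fun j P hP h2 h3 => hC' j P hP
      (le_trans (Real.rpow_le_rpow_of_exponent_le (one_le_exp_h P) hk') h2) h3⟩
  · have h1 := with_constant (φ := φ) (K := K) hn hN hs.le hsum hX (M := 1) (τ := τ) one_pos
      (by rw [div_one]; exact hτ)
    filter_upwards [h1] with ω hω ε hε
    obtain ⟨C', hC'⟩ := hω
    refine ⟨C', fun j P hP h2 h3 => (hC' j P hP h2 h3).trans_le ?_⟩
    nlinarith [rad_nonneg P]

end Pool.Agent.R909.Out.RandomResiduesNF
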